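import Pool.Agent.H56.QC.Defs

/-! Module M0 of MP_1fd04d_an: mollification (helper37). -/

set_option autoImplicit false

namespace Pool.Agent.H56.QC

open MeasureTheory Set Filter Topology Metric
open scoped RealInnerProductSpace ENNReal Convolution

variable {n : ℕ}

theorem phi_nonneg (k : ℕ) (y : E n) : 0 ≤ phi n k y := (bump n k).nonneg_normed y

theorem phi_even (k : ℕ) (y : E n) : phi n k (-y) = phi n k y :=
  ContDiffBump.normed_neg (bump n k) y

theorem phi_contDiff (k : ℕ) : ContDiff ℝ (⊤ : ℕ∞) (phi n k) := (bump n k).contDiff_normed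

theorem phi_continuous (k : ℕ) : Continuous (phi n k) := (bump n k).continuous_normed

theorem phi_tsupport_eq (k : ℕ) : tsupport (phi n k) = closedBall 0 (1 / ((k : ℝ) + 1)) :=
  (bump n k).tsupport_normed_eq

theorem phi_tsupport (k : ℕ) : tsupport (phi n k) ⊆ closedBall 0 (1 / ((k : ℝ) + 1)) :=
  (phi_tsupport_eq k).subset

theorem phi_hasCompactSupport (k : ℕ) : HasCompactSupport (phi n k) :=
  (bump n k).hasCompactSupport_normed

theorem phi_integrable (k : ℕ) : Integrable (phi n k) := (bump n k).integrable_normed

theorem phi_integral (k : ℕ) : ∫ y, phi n k y = 1 := (bump n k).integral_normed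

theorem phi_zero (k : ℕ) {y : E n} (hy : y ∉ closedBall (0 : E n) (1 / ((k : ℝ) + 1))) :
    phi n k y = 0 :=
  image_eq_zero_of_notMem_tsupport fun h => hy (phi_tsupport k h)

theorem moll_rad_le (k : ℕ) : 1 / ((k : ℝ) + 1) ≤ 1 := by
  rw [div_le_one (by positivity)]
  have : (0 : ℝ) ≤ k := Nat.cast_nonneg k
  linarith

theorem moll_eq_conv {V : Type*} [NormedAddCommGroup V] [NormedSpace ℝ V]
    (k : ℕ) (f : E n → V) :
    moll k f = (phi n k ⋆[ContinuousLinearMap.lsmul ℝ ℝ, volume] f) := rfl

theorem moll_contDiff {V : Type*} [NormedAddCommGroup V] [NormedSpace ℝ V] [CompleteSpace V]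
    (k : ℕ) (f : E n → V) (hf : LocallyIntegrable f) :
    ContDiff ℝ (⊤ : ℕ∞) (moll k f) := by
  rw [moll_eq_conv]
  exact (phi_hasCompactSupport k).contDiff_convolution_left _ (phi_contDiff k) hf

/-- integrability of the integrand of the mollification -/
theorem moll_integrable {V : Type*} [NormedAddCommGroup V] [NormedSpace ℝ V]
    (k : ℕ) (f : E n → V) (U : Set (E n)) (hf : LocallyIntegrableOn f U) (x : E n)
    (hx : closedBall x (1 / ((k : ℝ) + 1)) ⊆ U) :
    Integrable (fun y => phi n k y • f (x - y)) := by
  set r : ℝ := 1 / ((k : ℝ) + 1) with hr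
  have h1 : IntegrableOn f (closedBall x r) :=
    hf.integrableOn_compact_subset hx (isCompact_closedBall x r)
  have h2 : IntegrableOn (fun z => phi n k (x - z) • f z) (closedBall x r) := by
    have hc : Continuous (fun z : E n => phi n k (x - z)) :=
      (phi_continuous k).comp (continuous_const.sub continuous_id)
    exact IntegrableOn.continuousOn_smul h1 hc.continuousOn (isCompact_closedBall x r)
  have h3 : Integrable (fun z => phi n k (x - z) • f z) := by
    refine (integrableOn_iff_integrable_of_support_subset ?_).1 h2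
    intro z hz
    rw [Function.mem_support] at hz
    by_contra h4
    apply hz
    rw [phi_zero k, zero_smul]
    intro h5
    apply h4
    rw [mem_closedBall_zero_iff] at h5
    rw [mem_closedBall, dist_eq_norm, ← norm_neg, neg_sub]
    exact h5
  have h4 := h3.comp_sub_left x
  refine h4.congr (Eventually.of_forall fun y => ?_)
  simp only [sub_sub_cancel]

theorem moll_gradient (k : ℕ) (u : E n → ℝ) (F : E n → E n) (hF : Continuous F)
    (hu : ∀ x, HasGradientAt u (F x) x) (x : E n) :
    HasGradientAt (moll k u) (moll k F x) x := by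
  have huc : Continuous u := continuous_iff_continuousAt.2 fun x => (hu x).continuousAt
  rw [hasGradientAt_iff_hasFDerivAt]
  set T := InnerProductSpace.toDual ℝ (E n) with hT
  have hint : Integrable (fun y => phi n k y • F (x - y)) :=
    moll_integrable k F univ (hF.locallyIntegrable.locallyIntegrableOn univ) x (subset_univ _)
  have e1 : T (moll k F x) = ∫ y, phi n k y • T (F (x - y)) := by
    unfold moll
    have h1 := (T.toContinuousLinearEquiv : E n ≃L[ℝ] StrongDual ℝ (E n)).toContinuousLinearMap.integral_comp_comm hint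
    change ∫ y, T (phi n k y • F (x - y)) = T (∫ y, phi n k y • F (x - y)) at h1
    rw [← h1]
    refine integral_congr_ae (Eventually.of_forall fun y => ?_)
    change T (phi n k y • F (x - y)) = phi n k y • T (F (x - y))
    rw [map_smulₛₗ]
    simp
  rw [e1]
  -- a bound on a compact set
  obtain ⟨C, hC⟩ := (isCompact_closedBall (x : E n) 2).exists_bound_of_continuousOn
    (f := fun z => T (F z)) (T.continuous.comp hF).continuousOn
  refine hasFDerivAt_integral_of_dominated_of_fderiv_le
    (F := fun x y => phi n k y • u (x - y)) (F' := fun x y => phi n k y • T (F (x - y)))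
    (bound := fun y => phi n k y * C) (s := ball x 1) (ball_mem_nhds x one_pos) ?_ ?_ ?_ ?_ ?_ ?_
  · refine Eventually.of_forall fun z => ?_
    exact ((phi_continuous k).smul (huc.comp (continuous_const.sub continuous_id))).aestronglyMeasurable
  · exact moll_integrable k u univ (huc.locallyIntegrable.locallyIntegrableOn univ) x
      (subset_univ _)
  · exact ((phi_continuous k).smul
      ((T.continuous.comp hF).comp (continuous_const.sub continuous_id))).aestronglyMeasurable
  · refine Eventually.of_forall fun y z hz => ?_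
    rw [norm_smul, Real.norm_of_nonneg (phi_nonneg k y)]
    by_cases hy : y ∈ closedBall (0 : E n) (1 / ((k : ℝ) + 1))
    · refine mul_le_mul_of_nonneg_left (hC (z - y) ?_) (phi_nonneg k y)
      rw [mem_closedBall_zero_iff] at hy
      rw [mem_ball, dist_eq_norm] at hz
      rw [mem_closedBall, dist_eq_norm]
      have h1 : z - y - x = (z - x) - y := by abel
      rw [h1]
      have := norm_sub_le (z - x) y
      have := moll_rad_le k
      linarith
    · rw [phi_zero k hy, zero_mul, zero_mul]
  · exact (phi_integrable k).mul_const C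
  · refine Eventually.of_forall fun y z _ => ?_
    have h1 : HasFDerivAt u (T (F (z - y))) (z - y) :=
      hasGradientAt_iff_hasFDerivAt.1 (hu (z - y))
    have h2 : HasFDerivAt (fun z => u (z - y)) ((T (F (z - y))).comp
        (ContinuousLinearMap.id ℝ (E n))) z := h1.comp z ((hasFDerivAt_id z).sub_const y)
    rw [ContinuousLinearMap.comp_id] at h2
    exact h2.const_smul (phi n k y)

theorem moll_id (k : ℕ) (F : E n → E n) (r : ℝ) (hF : ∀ x, r ≤ ‖x‖ → F x = x) (x : E n)
    (hx : r + 1 ≤ ‖x‖) : moll k F x = x := by
  unfold moll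
  have h1 : ∀ y, phi n k y • F (x - y) = phi n k y • x - phi n k y • y := by
    intro y
    by_cases hy : y ∈ closedBall (0 : E n) (1 / ((k : ℝ) + 1))
    · rw [← smul_sub, hF]
      rw [mem_closedBall_zero_iff] at hy
      have := norm_sub_norm_le x y
      have := moll_rad_le k
      linarith
    · rw [phi_zero k hy, zero_smul, zero_smul, zero_smul, sub_zero]
  simp only [h1]
  have hi1 : Integrable (fun y : E n => phi n k y • x) := (phi_integrable k).smul_const x
  have hi2 : Integrable (fun y : E n => phi n k y • y) := by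
    refine Continuous.integrable_of_hasCompactSupport ((phi_continuous k).smul continuous_id) ?_
    exact (phi_hasCompactSupport k).smul_right
  have h0 : ∫ y : E n, phi n k y • y = 0 := by
    have h2 : ∫ y : E n, phi n k y • y = ∫ y : E n, phi n k (-y) • (-y) :=
      (integral_neg_eq_self (fun y : E n => phi n k y • y) volume).symm
    have h3 : ∫ y : E n, phi n k (-y) • (-y) = -∫ y : E n, phi n k y • y := by
      rw [← integral_neg]
      refine integral_congr_ae (Eventually.of_forall fun y => ?_)
      change phi n k (-y) • (-y) = -(phi n k y • y)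
      rw [phi_even, smul_neg]
    rw [h3] at h2
    have h4 : (2 : ℝ) • ∫ y : E n, phi n k y • y = 0 := by
      rw [two_smul]
      nth_rewrite 1 [h2]
      simp
    exact (smul_eq_zero.1 h4).resolve_left two_ne_zero
  rw [integral_sub hi1 hi2, h0, sub_zero]
  exact (bump n k).integral_normed_smul volume x

/-- the derivative of the mollification is the mollification of the weak differential -/
theorem moll_fderiv (k : ℕ) (U : Set (E n)) (F : E n → E n) (hF : LocallyIntegrable F)
    (G : E n → E n →L[ℝ] E n) (hw : WeakDiff U F G) (x : E n)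
    (hx : closedBall x (1 / ((k : ℝ) + 1)) ⊆ U) :
    fderiv ℝ (moll k F) x = ∫ y, phi n k y • G (x - y) := by
  have hd := ((phi_hasCompactSupport (n := n) k).hasFDerivAt_convolution_left
    (ContinuousLinearMap.lsmul ℝ ℝ : ℝ →L[ℝ] E n →L[ℝ] E n)
    ((phi_contDiff k).of_le (by exact_mod_cast le_top)) hF x)
  rw [moll_eq_conv, hd.fderiv]
  have hGi := moll_integrable k G U hw.2.1 x hx
  ext1 v
  -- the left side
  have hL : (fderiv ℝ (phi n k) ⋆[(ContinuousLinearMap.lsmul ℝ ℝ : ℝ →L[ℝ] E n →L[ℝ] E n).precompL
      (E n), volume] F) x v = ∫ y, (fderiv ℝ (phi n k) y v) • F (x - y) := by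
    have hc : ConvolutionExistsAt (fderiv ℝ (phi n k)) F x
        ((ContinuousLinearMap.lsmul ℝ ℝ : ℝ →L[ℝ] E n →L[ℝ] E n).precompL (E n)) volume :=
      (((phi_hasCompactSupport k).fderiv ℝ).convolutionExists_left _
        ((phi_contDiff k).continuous_fderiv (by simp)) hF) x
    unfold convolution
    rw [ContinuousLinearMap.integral_apply hc]
    rfl
  have hR : (∫ y, phi n k y • G (x - y)) v = ∫ y, phi n k y • G (x - y) v := by
    rw [ContinuousLinearMap.integral_apply hGi]
    rfl
  rw [hL, hR]
  -- the test function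
  set ψ : E n → ℝ := fun z => phi n k (x - z) with hψ
  have hψc : ContDiff ℝ (⊤ : ℕ∞) ψ := (phi_contDiff k).comp (contDiff_const.sub contDiff_id)
  have hψs : tsupport ψ ⊆ closedBall x (1 / ((k : ℝ) + 1)) := by
    refine closure_minimal ?_ isClosed_closedBall
    intro z hz
    rw [Function.mem_support] at hz
    by_contra h4
    apply hz
    apply phi_zero k
    intro h5
    apply h4
    rw [mem_closedBall_zero_iff] at h5
    rw [mem_closedBall, dist_eq_norm, ← norm_neg, neg_sub]
    exact h5
  have hψk : HasCompactSupport ψ :=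
    (isCompact_closedBall x _).of_isClosed_subset (isClosed_tsupport ψ) hψs
  have h1 := hw.2.2 ψ hψc hψk (hψs.trans hx) v
  have hder : ∀ z, fderiv ℝ ψ z v = -fderiv ℝ (phi n k) (x - z) v := by
    intro z
    have h2 : HasFDerivAt (phi n k) (fderiv ℝ (phi n k) (x - z)) (x - z) :=
      ((phi_contDiff k).differentiable (by simp) (x - z)).hasFDerivAt
    have h3 : HasFDerivAt (fun z : E n => x - z) (-ContinuousLinearMap.id ℝ (E n)) z :=
      (hasFDerivAt_id z).const_sub x
    have h4 := h2.comp z h3
    have h5 : fderiv ℝ ψ z = (fderiv ℝ (phi n k) (x - z)).comp (-ContinuousLinearMap.id ℝ (E n)) :=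
      h4.fderiv
    rw [h5]
    simp
  have e1 : ∫ y, (fderiv ℝ (phi n k) y v) • F (x - y) = -∫ z, (fderiv ℝ ψ z v) • F z := by
    rw [← integral_neg]
    rw [← integral_sub_left_eq_self (fun y => (fderiv ℝ (phi n k) y v) • F (x - y)) volume x]
    refine integral_congr_ae (Eventually.of_forall fun z => ?_)
    change (fderiv ℝ (phi n k) (x - z) v) • F (x - (x - z)) = -((fderiv ℝ ψ z v) • F z)
    rw [hder z, sub_sub_cancel, neg_smul, neg_neg]
  have e2 : ∫ y, phi n k y • G (x - y) v = ∫ z, ψ z • G z v := by
    rw [← integral_sub_left_eq_self (fun y => phi n k y • G (x - y) v) volume x]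
    refine integral_congr_ae (Eventually.of_forall fun z => ?_)
    change phi n k (x - z) • G (x - (x - z)) v = ψ z • G z v
    rw [sub_sub_cancel]
  rw [e1, e2, h1, neg_neg]

/-- Lebesgue differentiation for mollifications of a locally integrable function on `U` -/
theorem moll_lebesgue {V : Type*} [NormedAddCommGroup V] [NormedSpace ℝ V] [CompleteSpace V]
    (U : Set (E n)) (hU : IsOpen U) (G : E n → V) (hG : LocallyIntegrableOn G U) :
    ∀ᵐ x ∂(volume.restrict U), Tendsto (fun k => ∫ y, phi n k y • G (x - y)) atTop
      (𝓝 (G x)) := by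
  rw [ae_restrict_iff' hU.measurableSet, ae_iff]
  refine measure_null_of_locally_null _ fun x hx => ?_
  have hxU : x ∈ U := by
    by_contra h
    exact hx fun h' => absurd h' h
  obtain ⟨r, hr, hrU⟩ := Metric.nhds_basis_closedBall.mem_iff.1 (hU.mem_nhds hxU)
  set g : E n → V := (closedBall x r).indicator G with hg
  have hgi : Integrable g :=
    (hG.integrableOn_compact_subset hrU (isCompact_closedBall x r)).integrable_indicator
      isClosed_closedBall.measurableSet
  have hrad : Tendsto (fun k : ℕ => 1 / ((k : ℝ) + 1)) atTop (𝓝 0) :=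
    tendsto_one_div_add_atTop_nhds_zero_nat
  have key := ContDiffBump.ae_convolution_tendsto_right_of_locallyIntegrable
    (φ := fun k => bump n k) (l := atTop) (K := 2) (μ := volume) (g := g) hrad
    (Eventually.of_forall fun k => by
      change 1 / ((k : ℝ) + 1) ≤ 2 * (1 / (2 * ((k : ℝ) + 1)))
      apply le_of_eq
      field_simp) hgi.locallyIntegrable
  rw [ae_iff] at key
  refine ⟨_, inter_mem_nhdsWithin _ (ball_mem_nhds x (by positivity : 0 < r / 2)), ?_⟩
  refine measure_mono_null ?_ key
  rintro z ⟨hz, hzb⟩
  intro hlim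
  apply hz
  intro _
  rw [mem_ball] at hzb
  have hgz : g z = G z := indicator_of_mem (mem_closedBall.2 (by linarith)) G
  rw [← hgz]
  refine hlim.congr' ?_
  have hev := hrad.eventually (Iic_mem_nhds (by positivity : 0 < r / 2))
  filter_upwards [hev] with k hk
  have hk' : 1 / ((k : ℝ) + 1) ≤ r / 2 := hk
  have hsub : closedBall z (1 / ((k : ℝ) + 1)) ⊆ closedBall x r :=
    closedBall_subset_closedBall' (by linarith)
  change ∫ y, phi n k y • g (z - y) = _
  refine integral_congr_ae (Eventually.of_forall fun y => ?_)
  change phi n k y • g (z - y) = phi n k y • G (z - y)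
  by_cases hy : y ∈ closedBall (0 : E n) (1 / ((k : ℝ) + 1))
  · have h1 : z - y ∈ closedBall x r := by
      apply hsub
      rw [mem_closedBall, dist_eq_norm]
      rw [mem_closedBall_zero_iff] at hy
      simpa using hy
    have h2 : g (z - y) = G (z - y) := indicator_of_mem h1 G
    rw [h2]
  · rw [phi_zero k hy, zero_smul, zero_smul]

theorem moll_tendsto (U : Set (E n)) (hU : IsOpen U) (F : E n → E n) (hF : LocallyIntegrable F)
    (G : E n → E n →L[ℝ] E n) (hw : WeakDiff U F G) :
    ∀ᵐ x ∂(volume.restrict U), Tendsto (fun k => fderiv ℝ (moll k F) x) atTop (𝓝 (G x)) := by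
  have key := moll_lebesgue U hU G hw.2.1
  have hrad : Tendsto (fun k : ℕ => 1 / ((k : ℝ) + 1)) atTop (𝓝 0) :=
    tendsto_one_div_add_atTop_nhds_zero_nat
  rw [ae_restrict_iff' hU.measurableSet] at key ⊢
  filter_upwards [key] with x hx hxU
  obtain ⟨r, hr, hrU⟩ := Metric.nhds_basis_closedBall.mem_iff.1 (hU.mem_nhds hxU)
  refine (hx hxU).congr' ?_
  have hev := hrad.eventually (Iic_mem_nhds hr)
  filter_upwards [hev] with k hk
  exact (moll_fderiv k U F hF G hw x ((closedBall_subset_closedBall hk).trans hrU)).symm

end Pool.Agent.H56.QC
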