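import Pool.Agent.H37.QC.Moll
import Pool.Agent.H20.QC.Theta
import Pool.Agent.H25.QC.Smooth

/-! Module M7 of MP_1fd04d_an: the level inequality for weakly differentiable gradient maps
(helper37). -/

set_option autoImplicit false

namespace Pool.Agent.H56.QC

open MeasureTheory Set Filter Topology Metric
open scoped RealInnerProductSpace ENNReal Convolution

variable {n : ℕ}

/-! ### Symmetry -/

/-- the functional `A ↦ ⟪w, A v⟫` -/
noncomputable def weak_L (v w : E n) : (E n →L[ℝ] E n) →L[ℝ] ℝ :=
  (innerSL ℝ w).comp (ContinuousLinearMap.apply ℝ (E n) v)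

theorem weak_L_apply (v w : E n) (A : E n →L[ℝ] E n) : weak_L v w A = ⟪w, A v⟫ := rfl

theorem weak_locInt {V W : Type*} [NormedAddCommGroup V] [NormedSpace ℝ V] [NormedAddCommGroup W]
    [NormedSpace ℝ W] {f : E n → V} {U : Set (E n)} (hf : LocallyIntegrableOn f U)
    (L : V →L[ℝ] W) : LocallyIntegrableOn (fun x => L (f x)) U := by
  intro x hx
  obtain ⟨t, ht, hi⟩ := hf x hx
  exact ⟨t, ht, L.integrable_comp hi⟩

/-- a test function times a function which is locally integrable on `U` is integrable -/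
theorem weak_int {V : Type*} [NormedAddCommGroup V] [NormedSpace ℝ V] {f : E n → V}
    {U : Set (E n)} (hf : LocallyIntegrableOn f U) {φ : E n → ℝ} (hφ : Continuous φ)
    (hc : HasCompactSupport φ) (hs : tsupport φ ⊆ U) : Integrable (fun x => φ x • f x) := by
  have h1 : IntegrableOn f (tsupport φ) := hf.integrableOn_compact_subset hs hc
  have h2 : IntegrableOn (fun x => φ x • f x) (tsupport φ) :=
    IntegrableOn.continuousOn_smul h1 hφ.continuousOn hc
  refine (integrableOn_iff_integrable_of_support_subset ?_).1 h2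
  intro z hz
  rw [Function.mem_support] at hz
  by_contra h4
  exact hz (by rw [image_eq_zero_of_notMem_tsupport h4, zero_smul])

theorem weak_second (U : Set (E n)) (hU : IsOpen U) (u : E n → ℝ) (F : E n → E n)
    (hF : ContinuousOn F U) (hu : ∀ x ∈ U, HasGradientAt u (F x) x)
    (G : E n → E n →L[ℝ] E n) (hw : WeakDiff U F G) {φ : E n → ℝ}
    (hφ : ContDiff ℝ (⊤ : ℕ∞) φ) (hc : HasCompactSupport φ) (hs : tsupport φ ⊆ U) (v w : E n) :
    ∫ x, φ x • ⟪w, G x v⟫ = ∫ x, fderiv ℝ (fun z => fderiv ℝ φ z v) x w * u x := by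
  set ψ : E n → ℝ := fun z => fderiv ℝ φ z v with hψ
  have hψd : ContDiff ℝ (⊤ : ℕ∞) ψ := (hφ.fderiv_right (by simp)).clm_apply contDiff_const
  have hψc : HasCompactSupport ψ := hc.fderiv_apply ℝ v
  have hψs : tsupport ψ ⊆ U := (tsupport_fderiv_apply_subset ℝ v).trans hs
  have huc : ContinuousOn u U := fun x hx => (hu x hx).continuousAt.continuousWithinAt
  have huL : LocallyIntegrableOn u U := huc.locallyIntegrableOn hU.measurableSet
  have hFw : LocallyIntegrableOn (fun x => ⟪w, F x⟫) U :=
    (continuousOn_const.inner hF).locallyIntegrableOn hU.measurableSet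
  -- first step
  have h1 : ∫ x, φ x • ⟪w, G x v⟫ = - ∫ x, ψ x * ⟪w, F x⟫ := by
    have hG1 : Integrable (fun x => φ x • G x v) :=
      weak_int (f := fun x => G x v) (weak_locInt hw.2.1 (ContinuousLinearMap.apply ℝ (E n) v))
        hφ.continuous hc hs
    have hF1 : Integrable (fun x => ψ x • F x) := weak_int hw.1 hψd.continuous hψc hψs
    have e1 : ∫ x, φ x • ⟪w, G x v⟫ = ⟪w, ∫ x, φ x • G x v⟫ := by
      rw [← integral_inner hG1 w]
      refine integral_congr_ae (Eventually.of_forall fun x => ?_)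
      change φ x • ⟪w, G x v⟫ = ⟪w, φ x • G x v⟫
      rw [inner_smul_right, smul_eq_mul]
    have e2 : ∫ x, ψ x * ⟪w, F x⟫ = ⟪w, ∫ x, ψ x • F x⟫ := by
      rw [← integral_inner hF1 w]
      refine integral_congr_ae (Eventually.of_forall fun x => ?_)
      change ψ x * ⟪w, F x⟫ = ⟪w, ψ x • F x⟫
      rw [inner_smul_right]
    have e3 := hw.2.2 φ hφ hc hs v
    rw [e1, e2, hψ, e3, inner_neg_right, neg_neg]
  -- second step
  have hd : ∀ x ∈ tsupport ψ, fderiv ℝ u x w = ⟪w, F x⟫ := by
    intro x hx
    have h2 : HasFDerivAt u (InnerProductSpace.toDual ℝ (E n) (F x)) x :=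
      hasGradientAt_iff_hasFDerivAt.1 (hu x (hψs hx))
    rw [h2.fderiv, InnerProductSpace.toDual_apply_apply, real_inner_comm]
  have hcong : ∀ x, ψ x * fderiv ℝ u x w = ψ x * ⟪w, F x⟫ := by
    intro x
    by_cases hx : x ∈ tsupport ψ
    · rw [hd x hx]
    · rw [image_eq_zero_of_notMem_tsupport hx, zero_mul, zero_mul]
  have hi1 : Integrable (fun x => fderiv ℝ ψ x w * u x) := by
    have := weak_int huL ((hψd.continuous_fderiv (by simp)).clm_apply continuous_const)
      (hψc.fderiv_apply ℝ w) ((tsupport_fderiv_apply_subset ℝ w).trans hψs)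
    exact this
  have hi2 : Integrable (fun x => ψ x * fderiv ℝ u x w) := by
    have h3 := weak_int hFw hψd.continuous hψc hψs
    refine h3.congr (Eventually.of_forall fun x => ?_)
    exact (hcong x).symm
  have hi3 : Integrable (fun x => ψ x * u x) := weak_int huL hψd.continuous hψc hψs
  have h4 := integral_mul_fderiv_eq_neg_fderiv_mul_of_integrable hi1 hi2 hi3
    (fun x _ => hψd.differentiable (by simp) x)
    (fun x hx => (hasGradientAt_iff_hasFDerivAt.1 (hu x (hψs hx))).differentiableAt)
  rw [h1]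
  simp only [← hcong]
  rw [h4, neg_neg]

theorem weak_sym_of_basis (A : E n →L[ℝ] E n)
    (h : ∀ i j : Fin n, ⟪(EuclideanSpace.basisFun (Fin n) ℝ) j, A (EuclideanSpace.basisFun (Fin n) ℝ i)⟫
      = ⟪(EuclideanSpace.basisFun (Fin n) ℝ) i, A (EuclideanSpace.basisFun (Fin n) ℝ j)⟫) :
    Sym A := by
  intro v w
  set b := EuclideanSpace.basisFun (Fin n) ℝ with hb
  have key : ∀ v w : E n, ⟪A v, w⟫ = ∑ i, ∑ j, b.repr v i * (b.repr w j * ⟪b j, A (b i)⟫) := by
    intro v w
    conv_lhs => rw [← b.sum_repr v, ← b.sum_repr w]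
    rw [map_sum, sum_inner]
    refine Finset.sum_congr rfl fun i _ => ?_
    rw [inner_sum]
    refine Finset.sum_congr rfl fun j _ => ?_
    rw [map_smul, inner_smul_left, inner_smul_right, real_inner_comm]
    simp
  rw [key v w, real_inner_comm, key w v, Finset.sum_comm]
  refine Finset.sum_congr rfl fun j _ => Finset.sum_congr rfl fun i _ => ?_
  rw [h i j]
  ring

theorem sym_of_potential (U : Set (E n)) (hU : IsOpen U) (u : E n → ℝ) (F : E n → E n)
    (hF : ContinuousOn F U) (hu : ∀ x ∈ U, HasGradientAt u (F x) x)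
    (G : E n → E n →L[ℝ] E n) (hw : WeakDiff U F G) :
    ∀ᵐ x ∂(volume.restrict U), Sym (G x) := by
  have key : ∀ v w : E n, ∀ᵐ x, x ∈ U → ⟪w, G x v⟫ - ⟪v, G x w⟫ = 0 := by
    intro v w
    refine hU.ae_eq_zero_of_integral_contDiff_smul_eq_zero
      (f := fun x => ⟪w, G x v⟫ - ⟪v, G x w⟫) ?_ ?_
    · exact (weak_locInt hw.2.1 (weak_L v w - weak_L w v))
    · intro φ hφ hc hs
      have i1 : Integrable (fun x => φ x • ⟪w, G x v⟫) :=
        weak_int (f := fun x => ⟪w, G x v⟫) (weak_locInt hw.2.1 (weak_L v w)) hφ.continuous hc hs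
      have i2 : Integrable (fun x => φ x • ⟪v, G x w⟫) :=
        weak_int (f := fun x => ⟪v, G x w⟫) (weak_locInt hw.2.1 (weak_L w v)) hφ.continuous hc hs
      have e1 : ∫ x, φ x • (⟪w, G x v⟫ - ⟪v, G x w⟫)
          = (∫ x, φ x • ⟪w, G x v⟫) - ∫ x, φ x • ⟪v, G x w⟫ := by
        rw [← integral_sub i1 i2]
        refine integral_congr_ae (Eventually.of_forall fun x => ?_)
        exact smul_sub _ _ _
      rw [e1, weak_second U hU u F hF hu G hw hφ hc hs v w,
        weak_second U hU u F hF hu G hw hφ hc hs w v, sub_eq_zero]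
      refine integral_congr_ae (Eventually.of_forall fun x => ?_)
      change fderiv ℝ (fun z => fderiv ℝ φ z v) x w * u x
        = fderiv ℝ (fun z => fderiv ℝ φ z w) x v * u x
      congr 1
      have hd : DifferentiableAt ℝ (fderiv ℝ φ) x :=
        (hφ.fderiv_right (m := ((⊤ : ℕ∞) : WithTop ℕ∞)) (by simp)).differentiable (by simp) x
      have h1 : ∀ a b : E n, fderiv ℝ (fun z => fderiv ℝ φ z a) x b
          = fderiv ℝ (fderiv ℝ φ) x b a := by
        intro a b
        have h2 := hd.hasFDerivAt.clm_apply (hasFDerivAt_const a x)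
        rw [h2.fderiv]
        simp
      rw [h1 v w, h1 w v]
      exact second_derivative_symmetric
        (fun y => (hφ.differentiable (by simp) y).hasFDerivAt) hd.hasFDerivAt w v
  rw [ae_restrict_iff' hU.measurableSet]
  set b := EuclideanSpace.basisFun (Fin n) ℝ with hb
  have h2 : ∀ᵐ x, ∀ i j : Fin n, x ∈ U → ⟪b j, G x (b i)⟫ - ⟪b i, G x (b j)⟫ = 0 := by
    rw [ae_all_iff]
    intro i
    rw [ae_all_iff]
    intro j
    exact key (b i) (b j)
  filter_upwards [h2] with x hx hxU
  exact weak_sym_of_basis (G x) fun i j => sub_eq_zero.1 (hx i j hxU)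

/-! ### The level inequality -/

/-- a tangent line inequality -/
theorem weak_tangent (m : ℕ) {g s : ℝ} (hg : 0 ≤ g) (hs : 0 ≤ s) :
    s ^ (m + 1) + ((m : ℝ) + 1) * s ^ m * (g - s) ≤ g ^ (m + 1) := by
  induction m with
  | zero => simp
  | succ m ih =>
    have h1 := mul_le_mul_of_nonneg_right ih hg
    have h2 : 0 ≤ ((m : ℝ) + 1) * s ^ m * (g - s) ^ 2 := by positivity
    push_cast
    have h3 : g ^ (m + 1 + 1) = g ^ (m + 1) * g := by ring
    rw [h3]
    refine le_trans ?_ h1
    have h4 : (s ^ (m + 1) + ((m : ℝ) + 1) * s ^ m * (g - s)) * g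
        = s ^ (m + 1 + 1) + ((m : ℝ) + 1 + 1) * s ^ (m + 1) * (g - s)
          + ((m : ℝ) + 1) * s ^ m * (g - s) ^ 2 := by ring
    rw [h4]
    linarith

/-- Jensen -/
theorem weak_jensen (hn : 1 ≤ n) (k : ℕ) (G : E n → E n →L[ℝ] E n) (hG1 : LocallyIntegrable G)
    (hG : LocallyIntegrable (fun x => ‖G x‖ ^ n)) (x : E n) :
    ‖∫ y, phi n k y • G (x - y)‖ ^ n ≤ moll k (fun x => ‖G x‖ ^ n) x := by
  obtain ⟨m, rfl⟩ : ∃ m, n = m + 1 := ⟨n - 1, by omega⟩
  have i0 : Integrable (fun y => phi (m + 1) k y • G (x - y)) :=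
    moll_integrable k G univ (hG1.locallyIntegrableOn univ) x (subset_univ _)
  have i1 : Integrable (fun y => phi (m + 1) k y * ‖G (x - y)‖) := by
    refine i0.norm.congr (Eventually.of_forall fun y => ?_)
    change ‖phi (m + 1) k y • G (x - y)‖ = _
    rw [norm_smul, Real.norm_of_nonneg (phi_nonneg k y)]
  have i2 : Integrable (fun y => phi (m + 1) k y * ‖G (x - y)‖ ^ (m + 1)) :=
    moll_integrable k (fun x => ‖G x‖ ^ (m + 1)) univ (hG.locallyIntegrableOn univ) x
      (subset_univ _)
  set s : ℝ := ∫ y, phi (m + 1) k y * ‖G (x - y)‖ with hs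
  have hs0 : 0 ≤ s := integral_nonneg fun y => mul_nonneg (phi_nonneg k y) (norm_nonneg _)
  have h1 : ‖∫ y, phi (m + 1) k y • G (x - y)‖ ≤ s := by
    refine (norm_integral_le_integral_norm _).trans (le_of_eq ?_)
    refine integral_congr_ae (Eventually.of_forall fun y => ?_)
    change ‖phi (m + 1) k y • G (x - y)‖ = _
    rw [norm_smul, Real.norm_of_nonneg (phi_nonneg k y)]
  refine (pow_le_pow_left₀ (norm_nonneg _) h1 (m + 1)).trans ?_
  have j1 : Integrable (fun y => phi (m + 1) k y * s ^ (m + 1)) := (phi_integrable k).mul_const _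
  have j2 : Integrable (fun y => phi (m + 1) k y * s) := (phi_integrable k).mul_const _
  have j3 : Integrable (fun y => (((m : ℝ) + 1) * s ^ m)
      * (phi (m + 1) k y * ‖G (x - y)‖ - phi (m + 1) k y * s)) := (i1.sub j2).const_mul _
  have h2 : ∫ y, (phi (m + 1) k y * s ^ (m + 1)
      + (((m : ℝ) + 1) * s ^ m) * (phi (m + 1) k y * ‖G (x - y)‖ - phi (m + 1) k y * s))
      = s ^ (m + 1) := by
    rw [integral_add j1 j3, integral_mul_const, integral_const_mul, integral_sub i1 j2,
      integral_mul_const, phi_integral, ← hs]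
    ring
  rw [← h2]
  unfold moll
  refine integral_mono (j1.add j3) i2 fun y => ?_
  have h3 := mul_le_mul_of_nonneg_left (weak_tangent m (norm_nonneg (G (x - y))) hs0)
    (phi_nonneg k y)
  change phi (m + 1) k y * s ^ (m + 1) + (((m : ℝ) + 1) * s ^ m)
    * (phi (m + 1) k y * ‖G (x - y)‖ - phi (m + 1) k y * s)
    ≤ phi (m + 1) k y * ‖G (x - y)‖ ^ (m + 1)
  refine le_trans (le_of_eq ?_) h3
  ring

/-- Fatou's lemma for real functions -/
theorem weak_fatou {α : Type*} [MeasurableSpace α] {μ : Measure α} {f : ℕ → α → ℝ} {g : α → ℝ}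
    (hi : ∀ k, Integrable (f k) μ) (h0 : ∀ k x, 0 ≤ f k x)
    (hl : ∀ᵐ x ∂μ, Tendsto (fun k => f k x) atTop (𝓝 (g x))) {C : ℝ} (hC : ∀ k, ∫ x, f k x ∂μ ≤ C) :
    ∫ x, g x ∂μ ≤ C := by
  have hC0 : 0 ≤ C := (integral_nonneg (h0 0)).trans (hC 0)
  have hg0 : 0 ≤ᵐ[μ] g := by
    filter_upwards [hl] with x hx
    exact ge_of_tendsto' hx fun k => h0 k x
  have hgm : AEStronglyMeasurable g μ :=
    aestronglyMeasurable_of_tendsto_ae atTop (fun k => (hi k).aestronglyMeasurable) hl
  rw [integral_eq_lintegral_of_nonneg_ae hg0 hgm]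
  refine ENNReal.toReal_le_of_le_ofReal hC0 ?_
  have h1 : ∫⁻ x, ENNReal.ofReal (g x) ∂μ
      = ∫⁻ x, liminf (fun k => ENNReal.ofReal (f k x)) atTop ∂μ := by
    refine lintegral_congr_ae ?_
    filter_upwards [hl] with x hx
    exact ((ENNReal.tendsto_ofReal hx).liminf_eq).symm
  rw [h1]
  refine (lintegral_liminf_le' fun k => (hi k).aestronglyMeasurable.aemeasurable.ennreal_ofReal).trans ?_
  refine liminf_le_of_le (by isBoundedDefault) ?_
  intro b hb
  obtain ⟨k, hk⟩ := hb.exists
  refine hk.trans ?_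
  rw [← ofReal_integral_eq_lintegral_ofReal (hi k) (Eventually.of_forall (h0 k))]
  exact ENNReal.ofReal_le_ofReal (hC k)

/-- the derivative of a gradient map is symmetric -/
theorem weak_sym_fderiv {u : E n → ℝ} {F : E n → E n} (hu : ∀ x, HasGradientAt u (F x) x)
    {x : E n} (hF : DifferentiableAt ℝ F x) : Sym (fderiv ℝ F x) := by
  set L : E n →L[ℝ] E n →L[ℝ] ℝ := innerSL ℝ with hL
  have h1 : ∀ y, HasFDerivAt u (L (F y)) y := fun y => hasGradientAt_iff_hasFDerivAt.1 (hu y)
  have h2 : HasFDerivAt (fun y => L (F y)) (L.comp (fderiv ℝ F x)) x :=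
    L.hasFDerivAt.comp x hF.hasFDerivAt
  intro v w
  have h3 := second_derivative_symmetric h1 h2 v w
  have h4 : ∀ a b : E n, (L.comp (fderiv ℝ F x)) a b = ⟪fderiv ℝ F x a, b⟫ := fun _ _ => rfl
  rw [h4, h4] at h3
  rw [h3, real_inner_comm]

/-- mollification of the identity, local form -/
theorem weak_moll_id (k : ℕ) (F : E n → E n) (x : E n)
    (hF : ∀ y ∈ closedBall (0 : E n) (1 / ((k : ℝ) + 1)), F (x - y) = x - y) :
    moll k F x = x := by
  have h1 : moll k F x = moll k (fun z : E n => z) x := by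
    unfold moll
    refine integral_congr_ae (Eventually.of_forall fun y => ?_)
    change phi n k y • F (x - y) = phi n k y • (x - y)
    by_cases hy : y ∈ closedBall (0 : E n) (1 / ((k : ℝ) + 1))
    · rw [hF y hy]
    · rw [phi_zero k hy, zero_smul, zero_smul]
  rw [h1]
  exact moll_id k (fun z : E n => z) (‖x‖ - 1) (fun _ _ => rfl) x (by linarith)

/-- the weak differential is the identity where the map is the identity -/
theorem weak_G_eq_id (F : E n → E n) (hF : Continuous F)
    (G : E n → E n →L[ℝ] E n) (hw : WeakDiff univ F G) (hout : ∀ x, 1 ≤ ‖x‖ → F x = x) :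
    ∀ᵐ x, 1 ≤ ‖x‖ → G x = I n := by
  have h1 := moll_tendsto univ isOpen_univ F hF.locallyIntegrable G hw
  rw [Measure.restrict_univ] at h1
  have h2 : ∀ᵐ x : E n, x ∉ sphere (0 : E n) 1 :=
    measure_eq_zero_iff_ae_notMem.1 (Measure.addHaar_sphere_of_ne_zero volume 0 one_ne_zero)
  filter_upwards [h1, h2] with x hx hs h
  have hx1 : 1 < ‖x‖ := by
    refine lt_of_le_of_ne h fun h' => hs ?_
    rw [mem_sphere_zero_iff_norm, h']
  have hrad : Tendsto (fun k : ℕ => 1 / ((k : ℝ) + 1)) atTop (𝓝 0) :=
    tendsto_one_div_add_atTop_nhds_zero_nat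
  have h3 : Tendsto (fun k : ℕ => fderiv ℝ (moll k F) x) atTop (𝓝 (I n)) := by
    refine tendsto_const_nhds.congr' ?_
    have hev := hrad.eventually (Iic_mem_nhds (show (0 : ℝ) < (‖x‖ - 1) / 2 by linarith))
    filter_upwards [hev] with k hk
    have hk' : 1 / ((k : ℝ) + 1) ≤ (‖x‖ - 1) / 2 := hk
    have h4 : moll k F =ᶠ[𝓝 x] fun z => z := by
      filter_upwards [ball_mem_nhds x (show (0 : ℝ) < (‖x‖ - 1) / 2 by linarith)] with z hz
      refine weak_moll_id k F z fun y hy => hout _ ?_
      rw [mem_closedBall_zero_iff] at hy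
      rw [mem_ball, dist_eq_norm] at hz
      have e1 := norm_sub_norm_le x (x - (z - y))
      have e2 : x - (x - (z - y)) = z - y := by abel
      rw [e2] at e1
      have e3 : ‖x - (z - y)‖ ≤ ‖z - x‖ + ‖y‖ := by
        have : x - (z - y) = y - (z - x) := by abel
        rw [this, add_comm]
        exact norm_sub_le _ _
      linarith
    rw [h4.fderiv_eq, fderiv_fun_id]
  exact tendsto_nhds_unique hx h3

/-- mollification preserves the mass in the ball of radius two of a function which is one outside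
the unit ball -/
theorem weak_mass (k : ℕ) (h : E n → ℝ) (hh : LocallyIntegrable h)
    (h1 : ∀ᵐ x, 1 ≤ ‖x‖ → h x = 1) :
    ∫ x in ball (0 : E n) 2, moll k h x = ∫ x in ball (0 : E n) 2, h x := by
  set g : E n → ℝ := fun x => h x - 1 with hg
  have hg1 : ∀ᵐ x, 1 ≤ ‖x‖ → g x = 0 := by
    filter_upwards [h1] with x hx hx1
    rw [hg]
    simp [hx hx1]
  have hball : ∀ f : E n → ℝ, LocallyIntegrable f → IntegrableOn f (ball (0 : E n) 2) :=
    fun f hf => (hf.integrableOn_isCompact (isCompact_closedBall 0 2)).mono_set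
      ball_subset_closedBall
  have hgl : LocallyIntegrable g := hh.sub (locallyIntegrable_const 1)
  have hgi : Integrable g := by
    refine ((hball g hgl).integrable_indicator measurableSet_ball).congr ?_
    filter_upwards [hg1] with x hx
    by_cases hxb : x ∈ ball (0 : E n) 2
    · rw [indicator_of_mem hxb]
    · rw [indicator_of_notMem hxb, hx]
      rw [mem_ball_zero_iff, not_lt] at hxb
      linarith
  have e1 : ∀ x, moll k h x = moll k g x + 1 := by
    intro x
    have i1 : Integrable (fun y => phi n k y • g (x - y)) :=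
      moll_integrable k g univ (hgl.locallyIntegrableOn univ) x (subset_univ _)
    have i2 : Integrable (fun y => phi n k y • (1 : ℝ)) := (phi_integrable k).smul_const _
    unfold moll
    have e2 : (1 : ℝ) = ∫ y, phi n k y • (1 : ℝ) := by
      rw [integral_smul_const, phi_integral, one_smul]
    conv_rhs => rw [e2]
    rw [← integral_add i1 i2]
    refine integral_congr_ae (Eventually.of_forall fun y => ?_)
    change phi n k y • h (x - y) = phi n k y • (h (x - y) - 1) + phi n k y • (1 : ℝ)
    rw [← smul_add, sub_add_cancel]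
  have e3 : ∀ x, x ∉ ball (0 : E n) 2 → moll k g x = 0 := by
    intro x hx
    rw [mem_ball_zero_iff, not_lt] at hx
    have h2 : ∀ᵐ y, 1 ≤ ‖x - y‖ → g (x - y) = 0 :=
      (Measure.measurePreserving_sub_left volume x).quasiMeasurePreserving.ae hg1
    unfold moll
    rw [← integral_zero (E n) ℝ (μ := volume)]
    refine integral_congr_ae ?_
    filter_upwards [h2] with y hy
    by_cases hyb : y ∈ closedBall (0 : E n) (1 / ((k : ℝ) + 1))
    · rw [hy, smul_zero]
      rw [mem_closedBall_zero_iff] at hyb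
      have := norm_sub_norm_le x y
      have := moll_rad_le k
      linarith
    · rw [phi_zero k hyb, zero_smul]
  have e4 : ∫ x, moll k g x = ∫ x, g x := by
    rw [moll_eq_conv, integral_convolution _ (phi_integrable k) hgi, phi_integral]
    simp
  have e5 : ∫ x in ball (0 : E n) 2, moll k g x = ∫ x, moll k g x :=
    setIntegral_eq_integral_of_forall_compl_eq_zero e3
  have e6 : ∫ x in ball (0 : E n) 2, g x = ∫ x, g x := by
    refine setIntegral_eq_integral_of_ae_compl_eq_zero ?_
    filter_upwards [hg1] with x hx hxb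
    rw [mem_ball_zero_iff, not_lt] at hxb
    exact hx (by linarith)
  have e7 : ∫ x in ball (0 : E n) 2, h x = (∫ x in ball (0 : E n) 2, g x)
      + ∫ x in ball (0 : E n) 2, (1 : ℝ) := by
    rw [← integral_add (hball g hgl) (hball _ (locallyIntegrable_const 1))]
    refine integral_congr_ae (Eventually.of_forall fun x => ?_)
    change h x = h x - 1 + 1
    ring
  rw [e7, e6, ← e4, ← e5, ← integral_add
    (hball _ (moll_contDiff k g hgl).continuous.locallyIntegrable)
    (hball _ (locallyIntegrable_const 1))]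
  exact integral_congr_ae (Eventually.of_forall fun x => e1 x)

theorem weak_theta_id (hn : 2 ≤ n) (a : ℝ) :
    Theta (I n - a • I n) = (max (1 - a) 0) ^ n := by
  rw [theta_diag (I n) (EuclideanSpace.basisFun (Fin n) ℝ) (fun _ => 1)
    (fun i => by rw [one_smul]; rfl) a, th]
  by_cases h : (1 : ℝ) ≤ a
  · have h1 : (Finset.univ.filter (fun _ : Fin n => (1 : ℝ) ≤ a)).card = n := by
      rw [Finset.filter_true_of_mem fun _ _ => h, Finset.card_univ, Fintype.card_fin]
    rw [if_neg, max_eq_right (by linarith), zero_pow (by omega)]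
    rw [h1]
    omega
  · have h1 : (Finset.univ.filter (fun _ : Fin n => (1 : ℝ) ≤ a)).card = 0 := by
      rw [Finset.card_eq_zero, Finset.filter_eq_empty_iff]
      exact fun _ _ => h
    rw [if_pos, max_eq_left (by linarith), Finset.prod_const, Finset.card_univ, Fintype.card_fin]
    rw [h1]
    omega

/-- symmetric part of a difference with a scalar -/
theorem weak_symP_sub (A : E n →L[ℝ] E n) (a : ℝ) : symP (A - a • I n) = symP A - a • I n := by
  unfold symP
  have h : ContinuousLinearMap.adjoint (A - a • I n) = ContinuousLinearMap.adjoint A - a • I n := by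
    rw [map_sub, map_smulₛₗ]
    have : ContinuousLinearMap.adjoint (I n) = I n := by
      change ContinuousLinearMap.adjoint (1 : E n →L[ℝ] E n) = 1
      rw [← ContinuousLinearMap.star_eq_adjoint, star_one]
    rw [this]
    simp
  rw [h]
  module

/-- The level inequality for weakly differentiable gradient maps, assuming the one for smooth
maps (module M3, `mp_smooth`). -/
theorem mp_weak_of (hn : 2 ≤ n)
    (hsm : ∀ (w : E n → ℝ) (F : E n → E n), (∀ x, HasGradientAt w (F x) x) → ContDiff ℝ 1 F →
      ∀ k : ℝ, k ≠ 0 → ∀ R : ℝ, 0 < R → (∀ x, R ≤ ‖x‖ → F x = k • x) →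
      ∫ x in ball (0 : E n) R, Theta (fderiv ℝ F x) ≤
        (max k 0) ^ n * volume.real (ball (0 : E n) R))
    (u : E n → ℝ) (F : E n → E n) (hF : Continuous F)
    (hu : ∀ x, HasGradientAt u (F x) x) (G : E n → E n →L[ℝ] E n) (hw : WeakDiff univ F G)
    (hG : LocallyIntegrable (fun x => ‖G x‖ ^ n)) (hout : ∀ x, 1 ≤ ‖x‖ → F x = x)
    (a : ℝ) (ha : 0 < a) (ha1 : a ≠ 1) :
    ∫ x in ball (0 : E n) 1, Theta (symP (G x) - a • I n) ≤
      (max (1 - a) 0) ^ n * volume.real (ball (0 : E n) 1) := by
  have hne : Nonempty (Fin n) := ⟨⟨0, by omega⟩⟩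
  have hnt : Nontrivial (E n) := inferInstance
  have hG1 : LocallyIntegrable G := locallyIntegrableOn_univ.1 hw.2.1
  have hball : ∀ f : E n → ℝ, LocallyIntegrable f → IntegrableOn f (ball (0 : E n) 2) :=
    fun f hf => (hf.integrableOn_isCompact (isCompact_closedBall 0 2)).mono_set
      ball_subset_closedBall
  set C : ℝ := 2 ^ (n - 1) with hC
  set S : ℕ → E n → (E n →L[ℝ] E n) := fun k x => fderiv ℝ (moll k F) x with hS
  set h : E n → ℝ := fun x => ‖G x‖ ^ n with hh
  have hSd : ∀ k, ContDiff ℝ (⊤ : ℕ∞) (moll k F) := fun k => moll_contDiff k F hF.locallyIntegrable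
  have hSc : ∀ k, Continuous (S k) := fun k => (hSd k).continuous_fderiv (by simp)
  have hSsym : ∀ k x, Sym (S k x) := fun k x =>
    weak_sym_fderiv (moll_gradient k u F hF hu) ((hSd k).differentiable (by simp) x)
  have hSsym' : ∀ k x, Sym (S k x - a • I n) := by
    intro k x v w
    have := hSsym k x v w
    simp only [sub_apply, smul_apply, ContinuousLinearMap.id_apply, inner_sub_left, inner_sub_right, inner_smul_left,
      inner_smul_right, this]
    simp
  set T : ℕ → E n → ℝ := fun k x => Theta (symP (S k x - a • I n)) with hT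
  set B : ℕ → E n → ℝ := fun k x => C * (moll k h x + a ^ n) with hB
  have hTc : ∀ k, Continuous (T k) := fun k =>
    theta_continuous.comp ((hSc k).sub continuous_const)
  have hBc : ∀ k, Continuous (B k) := fun k =>
    continuous_const.mul ((moll_contDiff k h hG).continuous.add continuous_const)
  -- the inequality for the smooth functions
  have hT1 : ∀ k, ∫ x in ball (0 : E n) 2, T k x ≤
      (max (1 - a) 0) ^ n * volume.real (ball (0 : E n) 2) := by
    intro k
    set w : E n → ℝ := fun x => moll k u x - a / 2 * ‖x‖ ^ 2 with hw'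
    set W : E n → E n := fun x => moll k F x - a • x with hW
    have g1 : ∀ x, HasGradientAt w (W x) x := by
      intro x
      rw [hasGradientAt_iff_hasFDerivAt]
      have g2 := hasGradientAt_iff_hasFDerivAt.1 (moll_gradient k u F hF hu x)
      have g3 := ((hasStrictFDerivAt_norm_sq x).hasFDerivAt.const_mul (a / 2))
      refine (g2.sub g3).congr_fderiv ?_
      ext v
      simp only [sub_apply, smul_apply, InnerProductSpace.toDual_apply_apply, hW, inner_sub_left,
        inner_smul_left, innerSL_apply_apply, smul_eq_mul]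
      simp
      ring
    have g3' : ContDiff ℝ 1 (fun x : E n => a • x) := contDiff_id.const_smul a
    have g4 : ContDiff ℝ 1 W := ((hSd k).of_le (by exact_mod_cast le_top)).sub g3'
    have g5 : ∀ x, (2 : ℝ) ≤ ‖x‖ → W x = (1 - a) • x := by
      intro x hx
      change moll k F x - a • x = (1 - a) • x
      rw [moll_id k F 1 hout x (by linarith), sub_smul, one_smul]
    have g6 := hsm w W g1 g4 (1 - a) (sub_ne_zero.2 ha1.symm) 2 two_pos g5
    refine (le_of_eq ?_).trans g6
    refine integral_congr_ae (Eventually.of_forall fun x => ?_)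
    change Theta (symP (S k x - a • I n)) = Theta (fderiv ℝ W x)
    rw [symP_eq _ (hSsym' k x)]
    have g7 : HasFDerivAt W (S k x - a • I n) x :=
      ((hSd k).differentiable (by simp) x).hasFDerivAt.sub ((hasFDerivAt_id x).const_smul a)
    rw [g7.fderiv]
  have hTB : ∀ k x, |T k x| ≤ B k x := by
    intro k x
    have h1 := abs_theta_le _ (hSsym' k x)
    rw [hT]
    change |Theta (symP (S k x - a • I n))| ≤ _
    rw [symP_eq _ (hSsym' k x)]
    refine h1.trans ?_
    have h2 : ‖S k x - a • I n‖ ≤ ‖S k x‖ + a := by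
      refine (norm_sub_le _ _).trans ?_
      rw [norm_smul, Real.norm_of_nonneg ha.le]
      have : ‖I n‖ ≤ 1 := ContinuousLinearMap.norm_id_le
      nlinarith [norm_nonneg (S k x)]
    refine (pow_le_pow_left₀ (norm_nonneg _) h2 n).trans ?_
    refine (add_pow_le (norm_nonneg _) ha.le n).trans ?_
    refine mul_le_mul_of_nonneg_left ?_ (by positivity)
    have h3 : ‖S k x‖ ^ n ≤ moll k h x := by
      have h4 : S k x = ∫ y, phi n k y • G (x - y) :=
        moll_fderiv k univ F hF.locallyIntegrable G hw x (subset_univ _)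
      rw [h4]
      exact weak_jensen (by omega) k G hG1 hG x
    linarith
  -- the limits
  set T' : E n → ℝ := fun x => Theta (symP (G x) - a • I n) with hT'
  set B' : E n → ℝ := fun x => C * (h x + a ^ n) with hB'
  have l1 : ∀ᵐ x, Tendsto (fun k => T k x) atTop (𝓝 (T' x)) := by
    have h1 := moll_tendsto univ isOpen_univ F hF.locallyIntegrable G hw
    rw [Measure.restrict_univ] at h1
    filter_upwards [h1] with x hx
    have h2 := (theta_continuous.tendsto (G x - a • I n)).comp
      (hx.sub (tendsto_const_nhds (x := a • I n)))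
    rw [weak_symP_sub (G x) a] at h2
    exact h2
  have l2 : ∀ᵐ x, Tendsto (fun k => B k x) atTop (𝓝 (B' x)) := by
    have h1 := moll_lebesgue univ isOpen_univ h (hG.locallyIntegrableOn univ)
    rw [Measure.restrict_univ] at h1
    filter_upwards [h1] with x hx
    exact (hx.add tendsto_const_nhds).const_mul C
  have hTB' : ∀ᵐ x, |T' x| ≤ B' x := by
    filter_upwards [l1, l2] with x h1 h2
    exact le_of_tendsto_of_tendsto' h1.abs h2 fun k => hTB k x
  have hB'i : IntegrableOn B' (ball (0 : E n) 2) :=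
    hball _ ((hG.add (locallyIntegrable_const _)).smul C)
  have hT'm : AEStronglyMeasurable T' volume :=
    aestronglyMeasurable_of_tendsto_ae atTop (fun k => (hTc k).aestronglyMeasurable) l1
  have hT'i : IntegrableOn T' (ball (0 : E n) 2) := by
    refine hB'i.mono' hT'm.restrict ?_
    exact (ae_restrict_of_ae hTB')
  have hTi : ∀ k, IntegrableOn (T k) (ball (0 : E n) 2) := fun k =>
    hball _ (hTc k).locallyIntegrable
  have hBi : ∀ k, IntegrableOn (B k) (ball (0 : E n) 2) := fun k =>
    hball _ (hBc k).locallyIntegrable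
  have hG2 := weak_G_eq_id F hF G hw hout
  have hBB : ∀ k, ∫ x in ball (0 : E n) 2, B k x = ∫ x in ball (0 : E n) 2, B' x := by
    intro k
    have h1 := weak_mass k h hG (by
      filter_upwards [hG2] with x hx hx1
      change ‖G x‖ ^ n = 1
      rw [hx hx1, ContinuousLinearMap.norm_id, one_pow])
    rw [integral_const_mul, integral_const_mul, integral_add
      (hball _ (moll_contDiff k h hG).continuous.locallyIntegrable)
      (hball _ (locallyIntegrable_const _)), integral_add (hball _ hG)
      (hball _ (locallyIntegrable_const _)), h1]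
  -- Fatou
  have hfat : ∫ x in ball (0 : E n) 2, (T' x + B' x) ≤
      (max (1 - a) 0) ^ n * volume.real (ball (0 : E n) 2) + ∫ x in ball (0 : E n) 2, B' x := by
    refine weak_fatou (f := fun k x => T k x + B k x) (fun k => (hTi k).add (hBi k)) ?_ ?_ ?_
    · intro k x
      have := (abs_le.1 (hTB k x)).1
      linarith
    · exact ae_restrict_of_ae (by
        filter_upwards [l1, l2] with x h1 h2
        exact h1.add h2)
    · intro k
      rw [integral_add (hTi k) (hBi k), hBB k]
      linarith [hT1 k]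
  rw [integral_add hT'i hB'i] at hfat
  have hfin : ∫ x in ball (0 : E n) 2, T' x ≤
      (max (1 - a) 0) ^ n * volume.real (ball (0 : E n) 2) := by linarith
  -- subtract the shell
  have hsub : ball (0 : E n) 1 ⊆ ball (0 : E n) 2 := ball_subset_ball one_le_two
  have hsplit : ∫ x in ball (0 : E n) 2, T' x = (∫ x in ball (0 : E n) 1, T' x)
      + ∫ x in ball (0 : E n) 2 \ ball (0 : E n) 1, T' x := by
    rw [← setIntegral_union disjoint_sdiff_right (measurableSet_ball.diff measurableSet_ball)
      (hT'i.mono_set hsub) (hT'i.mono_set sdiff_subset), union_sdiff_cancel hsub]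
  have hshell : ∫ x in ball (0 : E n) 2 \ ball (0 : E n) 1, T' x
      = (max (1 - a) 0) ^ n * (volume.real (ball (0 : E n) 2) - volume.real (ball (0 : E n) 1)) := by
    have h1 : ∫ x in ball (0 : E n) 2 \ ball (0 : E n) 1, T' x
        = ∫ x in ball (0 : E n) 2 \ ball (0 : E n) 1, (max (1 - a) 0) ^ n := by
      refine setIntegral_congr_ae (measurableSet_ball.diff measurableSet_ball) ?_
      filter_upwards [hG2] with x hx hxm
      have h2 : 1 ≤ ‖x‖ := by
        have := hxm.2
        rwa [mem_ball_zero_iff, not_lt] at this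
      change Theta (symP (G x) - a • I n) = _
      rw [hx h2, symP_eq (I n) (fun _ _ => rfl)]
      exact weak_theta_id hn a
    rw [h1, setIntegral_const, smul_eq_mul, mul_comm,
      measureReal_sdiff hsub measurableSet_ball measure_ball_lt_top.ne]
  rw [hsplit, hshell] at hfin
  linarith

theorem mp_weak (hn : 2 ≤ n) (u : E n → ℝ) (F : E n → E n) (hF : Continuous F)
    (hu : ∀ x, HasGradientAt u (F x) x) (G : E n → E n →L[ℝ] E n) (hw : WeakDiff univ F G)
    (hG : LocallyIntegrable (fun x => ‖G x‖ ^ n)) (hout : ∀ x, 1 ≤ ‖x‖ → F x = x)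
    (a : ℝ) (ha : 0 < a) (ha1 : a ≠ 1) :
    ∫ x in ball (0 : E n) 1, Theta (symP (G x) - a • I n) ≤
      (max (1 - a) 0) ^ n * volume.real (ball (0 : E n) 1) :=
  mp_weak_of hn (fun w F h1 h2 k hk R hR h3 => mp_smooth hn w F h1 h2 k hk R hR h3)
    u F hF hu G hw hG hout a ha ha1

end Pool.Agent.H56.QC
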